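import Mathlib
import Pool.Agent.Q78.Tent

/-!
# MP_25bc1d_an : shortest forbidden order pattern of symmetric tent maps
-/

namespace Pool.Agent.Results.MP_25bc1d_an.ShortestForbiddenPattern

open Set Function

/-- The symmetric tent map `T_μ(x) = 2 μ min(x, 1 - x)` (used on `[0,1]`). -/
noncomputable def tent (μ : ℝ) (x : ℝ) : ℝ := 2 * μ * min x (1 - x)

/-- `π = Pat(x, f, n)`: the first `n` points of the orbit are pairwise distinct and `π` is their
order pattern (positions and values are numbered from `0`). -/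
def IsPat (f : ℝ → ℝ) (x : ℝ) {n : ℕ} (π : Equiv.Perm (Fin n)) : Prop :=
  (∀ i j : Fin n, i ≠ j → f^[i] x ≠ f^[j] x) ∧
    ∀ i j : Fin n, π i < π j ↔ f^[i] x < f^[j] x

/-- The allowed patterns of length `n` of a map of `[0,1]`. -/
def Allow (f : ℝ → ℝ) (n : ℕ) : Set (Equiv.Perm (Fin n)) :=
  {π | ∃ x ∈ Icc (0 : ℝ) 1, IsPat f x π}

/-- `π` is `μ`-forbidden: allowed for the full tent map, not allowed for `T_μ`. -/
def IsForbidden (μ : ℝ) {n : ℕ} (π : Equiv.Perm (Fin n)) : Prop :=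
  π ∈ Allow (tent 1) n ∧ π ∉ Allow (tent μ) n

/-- Entry number `i` (counted from `0`) of `σ_n`, lowered by one. -/
def sigmaVal (n i : ℕ) : ℕ := if i = 0 then n - 2 else if i = 1 then n - 1 else i - 2

/-- The inverse of `sigmaVal n` on `{0, …, n-1}`. -/
def sigmaInv (n v : ℕ) : ℕ := if v = n - 2 then 0 else if v = n - 1 then 1 else v + 2

theorem sigmaVal_lt {n i : ℕ} (hn : 2 ≤ n) (hi : i < n) : sigmaVal n i < n := by
  unfold sigmaVal
  split_ifs <;> omega

theorem sigmaInv_lt {n v : ℕ} (hn : 2 ≤ n) (hv : v < n) : sigmaInv n v < n := by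
  unfold sigmaInv
  split_ifs <;> omega

theorem sigmaInv_val {n i : ℕ} (hn : 2 ≤ n) (hi : i < n) : sigmaInv n (sigmaVal n i) = i := by
  unfold sigmaVal sigmaInv
  split_ifs <;> omega

theorem sigmaVal_inv {n v : ℕ} (hn : 2 ≤ n) (hv : v < n) : sigmaVal n (sigmaInv n v) = v := by
  unfold sigmaInv
  by_cases a : v = n - 2
  · rw [if_pos a]; unfold sigmaVal; rw [if_pos rfl, a]
  · by_cases b : v = n - 1
    · rw [if_neg a, if_pos b]; unfold sigmaVal; rw [if_neg one_ne_zero, if_pos rfl, b]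
    · rw [if_neg a, if_neg b]; unfold sigmaVal; rw [if_neg (by omega), if_neg (by omega)]
      omega

/-- The pattern `σ_n = (n-1) n 1 2 3 ⋯ (n-2)`; with positions and values numbered from `0` it
sends `0 ↦ n-2`, `1 ↦ n-1` and `i ↦ i-2` for `i ≥ 2`. -/
def sigma (n : ℕ) (hn : 2 ≤ n) : Equiv.Perm (Fin n) where
  toFun i := ⟨sigmaVal n i, sigmaVal_lt hn i.2⟩
  invFun v := ⟨sigmaInv n v, sigmaInv_lt hn v.2⟩
  left_inv i := Fin.ext (sigmaInv_val hn i.2)
  right_inv v := Fin.ext (sigmaVal_inv hn v.2)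

theorem tent_eq (μ : ℝ) : tent μ = Q78.Tent.T (2 * μ) := by
  funext x
  rfl

theorem isPat_iff (f : ℝ → ℝ) (x : ℝ) {n : ℕ} (π : Equiv.Perm (Fin n)) :
    IsPat f x π ↔ ∀ i j : Fin n, π i < π j → f^[i] x < f^[j] x := by
  constructor
  · intro h i j hij
    exact (h.2 i j).1 hij
  · intro h
    refine ⟨?_, ?_⟩
    · intro i j hij
      have hne : π i ≠ π j := fun e => hij (π.injective e)
      rcases lt_or_gt_of_ne hne with h' | h'
      · exact (h i j h').ne
      · exact (h j i h').ne'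
    · intro i j
      refine ⟨h i j, fun hlt => ?_⟩
      by_contra hcon
      rcases (not_lt.1 hcon).lt_or_eq with h' | h'
      · exact absurd (h j i h') (not_lt.2 hlt.le)
      · have := π.injective h'
        rw [this] at hlt
        exact lt_irrefl _ hlt

theorem mem_allow_iff (f : ℝ → ℝ) {n : ℕ} (π : Equiv.Perm (Fin n)) :
    π ∈ Allow f n ↔ ∃ x ∈ Icc (0 : ℝ) 1, ∀ i j : Fin n, π i < π j → f^[i] x < f^[j] x := by
  unfold Allow
  simp only [mem_ofPred_eq, isPat_iff]

/-- No forbidden pattern when the inequality holds. -/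
theorem not_forbidden {μ : ℝ} (h1 : 1 / 2 < μ) (h2 : μ < 1) {n : ℕ}
    (h : (2 * μ) ^ (n - 2) * (2 - 2 * μ) < 1) (π : Equiv.Perm (Fin n)) : ¬ IsForbidden μ π := by
  rintro ⟨ha, hb⟩
  apply hb
  rw [mem_allow_iff] at ha ⊢
  rw [tent_eq] at ha ⊢
  rw [mul_one] at ha
  refine Q78.Tent.continuation n (2 * μ) (by linarith) (by linarith) ?_ π ha
  intro a hba ha2
  exact Q78.Tent.crit_distinct a (by linarith) ha2 n
    (Q78.Tent.cond_mono (n - 2) (by linarith) hba h)

theorem sigma_mem_full (n : ℕ) (hn : 2 ≤ n) : sigma n hn ∈ Allow (tent 1) n := by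
  rw [mem_allow_iff, tent_eq, mul_one]
  obtain ⟨x, hx, h1, h2, h3⟩ := Q78.Tent.sigma_full n hn
  refine ⟨x, hx, ?_⟩
  have hmono : ∀ d k, 2 ≤ k → k + (d + 1) < n →
      (Q78.Tent.T 2)^[k] x < (Q78.Tent.T 2)^[k + (d + 1)] x := by
    intro d
    induction d with
    | zero => intro k hk hkn; exact h1 k hk hkn
    | succ d ih =>
      intro k hk hkd
      exact (ih k hk (by omega)).trans (h1 (k + (d + 1)) (by omega) (by omega))
  intro i j hij
  have hi := i.2
  have hj := j.2
  have hij' : (if (i : ℕ) = 0 then n - 2 else if (i : ℕ) = 1 then n - 1 else (i : ℕ) - 2) <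
      (if (j : ℕ) = 0 then n - 2 else if (j : ℕ) = 1 then n - 1 else (j : ℕ) - 2) := hij
  by_cases i0 : (i : ℕ) = 0
  · by_cases j0 : (j : ℕ) = 0
    · simp [i0, j0] at hij'
    · by_cases j1 : (j : ℕ) = 1
      · rw [i0, j1]
        exact h3
      · simp only [i0, j0, j1, if_true, if_false] at hij'
        omega
  · by_cases i1 : (i : ℕ) = 1
    · by_cases j0 : (j : ℕ) = 0
      · simp only [i1, j0, if_true] at hij'
        simp only [one_ne_zero, if_false] at hij'
        omega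
      · by_cases j1 : (j : ℕ) = 1
        · simp [i1, j1] at hij'
        · rw [if_neg i0, if_pos i1, if_neg j0, if_neg j1] at hij'
          omega
    · have hi2 : 2 ≤ (i : ℕ) := by omega
      by_cases j0 : (j : ℕ) = 0
      · rw [j0]
        exact h2 i hi2 hi
      · by_cases j1 : (j : ℕ) = 1
        · rw [j1]
          exact (h2 i hi2 hi).trans h3
        · simp only [i0, i1, j0, j1, if_false] at hij'
          have := hmono ((j : ℕ) - i - 1) i hi2 (by omega)
          rwa [show (i : ℕ) + ((j : ℕ) - i - 1 + 1) = j by omega] at this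

theorem sigma_not_mem {μ : ℝ} (h1 : 1 / 2 < μ) (h2 : μ < 1) {n : ℕ} (hn : 2 ≤ n)
    (h : 1 ≤ (2 * μ) ^ (n - 2) * (2 - 2 * μ)) : sigma n hn ∉ Allow (tent μ) n := by
  intro hmem
  have hn3 : 3 ≤ n := by
    by_contra hcon
    have : n = 2 := by omega
    subst this
    simp at h
    linarith
  rw [mem_allow_iff, tent_eq] at hmem
  obtain ⟨x, hx, hπ⟩ := hmem
  have key : ∀ i j : ℕ, ∀ (hi : i < n) (hj : j < n),
      (if i = 0 then n - 2 else if i = 1 then n - 1 else i - 2) <
      (if j = 0 then n - 2 else if j = 1 then n - 1 else j - 2) →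
      (Q78.Tent.T (2 * μ))^[i] x < (Q78.Tent.T (2 * μ))^[j] x := by
    intro i j hi hj hij
    exact hπ ⟨i, hi⟩ ⟨j, hj⟩ hij
  have := Q78.Tent.sigma_forces (2 * μ) (by linarith) (by linarith) n hn3 x hx ?_ ?_ ?_ ?_
  · linarith
  · intro k hk hkn
    refine key k (k + 1) (by omega) hkn ?_
    have a1 : k ≠ 0 := by omega
    have a2 : k ≠ 1 := by omega
    have a3 : k + 1 ≠ 0 := by omega
    have a4 : k + 1 ≠ 1 := by omega
    simp only [a1, a2, a3, a4, if_false]
    omega
  · refine key (n - 1) 0 (by omega) (by omega) ?_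
    have a1 : n - 1 ≠ 0 := by omega
    have a2 : n - 1 ≠ 1 := by omega
    simp only [a1, a2, if_false, if_true]
    omega
  · refine key 0 1 (by omega) (by omega) ?_
    simp only [if_true, one_ne_zero, if_false]
    omega
  · refine key 2 1 (by omega) (by omega) ?_
    simp only [if_true, one_ne_zero, if_false, OfNat.ofNat_ne_zero, OfNat.ofNat_ne_one]
    omega

/-- Let `1/2 < μ < 1`. If `n` is the smallest length of a `μ`-forbidden pattern, then `T_μ`
avoids `σ_n`, and `σ_n` is itself a `μ`-forbidden pattern (of the smallest length). Moreover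
`μ`-forbidden patterns of length `m` exist if and only if `(2μ)^(m-2) (2 - 2μ) ≥ 1`
(with `m - 2` read as `0` for `m ≤ 2`). -/
theorem result (μ : ℝ) (h1 : 1 / 2 < μ) (h2 : μ < 1) :
    (∀ n : ℕ, IsLeast {m : ℕ | 1 ≤ m ∧ ∃ π : Equiv.Perm (Fin m), IsForbidden μ π} n →
      ∃ hn : 2 ≤ n, sigma n hn ∉ Allow (tent μ) n ∧ IsForbidden μ (sigma n hn)) ∧
    ∀ m : ℕ, (∃ π : Equiv.Perm (Fin m), IsForbidden μ π) ↔
      1 ≤ (2 * μ) ^ (m - 2) * (2 - 2 * μ) := by
  have key : ∀ m : ℕ, 1 ≤ (2 * μ) ^ (m - 2) * (2 - 2 * μ) → 2 ≤ m := by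
    intro m hm
    by_contra hcon
    have : m - 2 = 0 := by omega
    rw [this] at hm
    simp at hm
    linarith
  have hiff : ∀ m : ℕ, (∃ π : Equiv.Perm (Fin m), IsForbidden μ π) ↔
      1 ≤ (2 * μ) ^ (m - 2) * (2 - 2 * μ) := by
    intro m
    constructor
    · rintro ⟨π, hπ⟩
      by_contra hcon
      exact not_forbidden h1 h2 (not_le.1 hcon) π hπ
    · intro h
      exact ⟨sigma m (key m h), sigma_mem_full m (key m h), sigma_not_mem h1 h2 (key m h) h⟩
  refine ⟨?_, hiff⟩
  intro n hn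
  have h := (hiff n).1 hn.1.2
  exact ⟨key n h, sigma_not_mem h1 h2 (key n h) h, sigma_mem_full n (key n h),
    sigma_not_mem h1 h2 (key n h) h⟩

end Pool.Agent.Results.MP_25bc1d_an.ShortestForbiddenPattern
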